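import Pool.Agent.helper23.CU.Spec

/-! # Project cu, module TA: exponential tail at low temperature -/

open Finset Filter Topology

namespace CU

theorem TA_rho (d : ℕ) (β : ℝ) (hd : 2 ≤ d) (hβ : Real.log (12 * d - 13) / 2 < β) :
    0 < 6 * ((d - 1 : ℕ) : ℝ) * (2 * Real.exp (-2 * β) / (1 + Real.exp (-2 * β))) ∧
    6 * ((d - 1 : ℕ) : ℝ) * (2 * Real.exp (-2 * β) / (1 + Real.exp (-2 * β))) < 1 := by
  have hd' : (2 : ℝ) ≤ d := by exact_mod_cast hd
  have hcast : ((d - 1 : ℕ) : ℝ) = (d : ℝ) - 1 := by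
    rw [Nat.cast_sub (by omega)]
    simp
  have hx : 0 < Real.exp (-2 * β) := Real.exp_pos _
  have hpos : (0 : ℝ) < 12 * d - 13 := by linarith
  have h1 : (12 * (d : ℝ) - 13) < Real.exp (2 * β) := by
    rw [← Real.log_lt_iff_lt_exp hpos]
    linarith
  have h2 : (12 * (d : ℝ) - 13) * Real.exp (-2 * β) < 1 := by
    have h3 : Real.exp (2 * β) * Real.exp (-2 * β) = 1 := by
      rw [← Real.exp_add]
      simp
    calc (12 * (d : ℝ) - 13) * Real.exp (-2 * β) < Real.exp (2 * β) * Real.exp (-2 * β) :=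
          mul_lt_mul_of_pos_right h1 hx
      _ = 1 := h3
  rw [hcast]
  constructor
  · have : (0 : ℝ) < (d : ℝ) - 1 := by linarith
    positivity
  · rw [← mul_div_assoc, div_lt_one (by positivity)]
    nlinarith

theorem TA (hPC : PC_stmt) : TA_stmt := by
  intro d β hd hβ
  obtain ⟨h0, h1⟩ := TA_rho d β hd hβ
  have hd' : (2 : ℝ) ≤ d := by exact_mod_cast hd
  have hβ0 : 0 ≤ β := by
    have h2 : 0 ≤ Real.log (12 * d - 13) := Real.log_nonneg (by linarith)
    linarith
  set ρ : ℝ := 2 * Real.exp (-2 * β) / (1 + Real.exp (-2 * β)) with hρ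
  have hρ0 : 0 < ρ := by
    rw [hρ]
    positivity
  set lam : ℝ := 6 * ((d - 1 : ℕ) : ℝ) * ρ with hlam
  refine ⟨d * ρ, -Real.log lam, d, by positivity, by
    have := Real.log_neg h0 h1
    linarith, ?_⟩
  intro n r
  have h2 := hPC d (n + 3) r (by omega) β hβ0
  refine h2.trans (le_of_eq ?_)
  have hcard : (Fintype.card (Edge d (n + 3)) : ℝ) = ((n : ℝ) + 3) ^ d * d := by
    have : Fintype.card (Edge d (n + 3)) = (n + 3) ^ d * d := by
      rw [Fintype.card_prod, Fintype.card_fun, ZMod.card, Fintype.card_fin]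
    rw [this]
    push_cast
    ring
  have hexp : Real.exp (- -Real.log lam * r) = lam ^ r := by
    rw [neg_neg, mul_comm, Real.exp_nat_mul, Real.exp_log h0]
  rw [hcard, hexp, hlam, pow_succ]
  rw [mul_pow (6 * ((d - 1 : ℕ) : ℝ)) ρ r]
  ring

end CU
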